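import Mathlib

set_option autoImplicit false

namespace Pool.Agent.W173.Ud

open Polynomial

/-- `33` is a square in `ℤ_2` (Hensel). -/
theorem exists_sqrt33 : ∃ t : ℤ_[2], t ^ 2 = 33 := by
  have h2 : ‖(2 : ℤ_[2])‖ = 2⁻¹ := by
    have := PadicInt.norm_p (p := 2)
    simpa using this
  have h1 : ‖(-32 : ℤ_[2])‖ = (2⁻¹ : ℝ) ^ 5 := by
    have : (-32 : ℤ_[2]) = -(2 ^ 5) := by norm_num
    rw [this, norm_neg, norm_pow, h2]
  obtain ⟨z, hz, -⟩ := hensels_lemma (p := 2) (F := (X ^ 2 - C 33 : ℤ_[2][X])) (a := (1 : ℤ_[2]))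
    (by
      have e1 : (aeval (1 : ℤ_[2])) (X ^ 2 - C 33 : ℤ_[2][X]) = -32 := by
        simp; norm_num
      have e2 : (aeval (1 : ℤ_[2])) (derivative (X ^ 2 - C 33 : ℤ_[2][X])) = 2 := by
        simp; norm_num
      rw [e1, e2, h1, h2]
      norm_num)
  refine ⟨z, ?_⟩
  simp at hz
  exact sub_eq_zero.1 hz

/-- The algebraic closure of `ℚ_2`, with its 2-adic norm. -/
abbrev Ω := PadicAlgCl 2

theorem norm_two : ‖(2 : Ω)‖ = 2⁻¹ := by
  have h := PadicAlgCl.norm_extends (p := 2) (2 : ℚ_[2])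
  rw [map_ofNat] at h
  rw [h]
  have h3 := Padic.norm_p (p := 2)
  exact_mod_cast h3

theorem norm_add_le (x y : Ω) : ‖x + y‖ ≤ max ‖x‖ ‖y‖ :=
  IsUltrametricDist.norm_add_le_max x y

theorem norm_sub_le' (x y : Ω) : ‖x - y‖ ≤ max ‖x‖ ‖y‖ := by
  have := norm_add_le x (-y)
  rwa [norm_neg, ← sub_eq_add_neg] at this

/-- nonzero elements of `ℚ_2` have norm a power of two -/
theorem norm_coe (a : ℚ_[2]) : a = 0 ∨ ∃ n : ℤ, ‖(algebraMap ℚ_[2] Ω a)‖ = (2 : ℝ) ^ n := by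
  by_cases ha : a = 0
  · exact Or.inl ha
  · right
    obtain ⟨n, hn⟩ := Padic.padicNormE.image (p := 2) ha
    refine ⟨-n, ?_⟩
    rw [PadicAlgCl.norm_extends, hn]
    push_cast
    rfl

section root

variable {r : Ω} (hr : r ^ 2 = 3)
include hr

theorem norm_r : ‖r‖ = 1 := by
  have h3 : ‖(3 : Ω)‖ = 1 := by
    have h := norm_add_le (1 : Ω) 2
    have h' := norm_sub_le' (3 : Ω) 2
    rw [norm_one, norm_two] at h
    rw [norm_two] at h'
    have e1 : (1 : Ω) + 2 = 3 := by norm_num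
    have e2 : (3 : Ω) - 2 = 1 := by norm_num
    have e3 : max (1 : ℝ) 2⁻¹ = 1 := by norm_num
    rw [e1, e3] at h
    rw [e2, norm_one] at h'
    rcases le_max_iff.1 h' with h' | h'
    · exact le_antisymm h h'
    · norm_num at h'
  have h : ‖r‖ ^ 2 = 1 := by rw [← norm_pow, hr, h3]
  nlinarith [norm_nonneg r]

theorem norm_r_sub_one : ‖r - 1‖ ^ 2 = 2⁻¹ := by
  have h1 : ‖(2 : Ω) - r‖ ≤ 1 := by
    refine (norm_sub_le' _ _).trans ?_
    rw [norm_two, norm_r hr]; norm_num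
  have h2 : ‖(2 : Ω) + r‖ ≤ 1 := by
    refine (norm_add_le _ _).trans ?_
    rw [norm_two, norm_r hr]; norm_num
  have h3 : ‖(2 : Ω) - r‖ * ‖(2 : Ω) + r‖ = 1 := by
    rw [← norm_mul]
    have : ((2 : Ω) - r) * (2 + r) = 1 := by linear_combination (-1 : Ω) * hr
    rw [this, norm_one]
  have h4 : ‖(2 : Ω) - r‖ = 1 := by
    nlinarith [norm_nonneg ((2 : Ω) - r), norm_nonneg ((2 : Ω) + r)]
  have h5 : (r - 1) ^ 2 = 2 * (2 - r) := by linear_combination hr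
  rw [← norm_pow, h5, norm_mul, h4, norm_two, mul_one]

/-- The norm of `a + b (r - 1)` for `a, b ∈ ℚ_2` is the maximum of the two norms. -/
theorem norm_eq_max (a b : ℚ_[2]) :
    ‖algebraMap ℚ_[2] Ω a + algebraMap ℚ_[2] Ω b * (r - 1)‖ =
      max ‖algebraMap ℚ_[2] Ω a‖ ‖algebraMap ℚ_[2] Ω b * (r - 1)‖ := by
  by_cases hne : ‖algebraMap ℚ_[2] Ω a‖ = ‖algebraMap ℚ_[2] Ω b * (r - 1)‖
  · rcases norm_coe a with ha | ⟨m, hm⟩
    · subst ha
      rw [map_zero, norm_zero, zero_add]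
      exact (max_eq_right (norm_nonneg _)).symm
    · exfalso
      rcases norm_coe b with hb | ⟨n, hn⟩
      · subst hb
        rw [hm] at hne
        simp at hne
        exact (zpow_ne_zero m (two_ne_zero)) hne
      · rw [norm_mul, hn, hm] at hne
        have h1 : ((2 : ℝ) ^ m) ^ 2 = ((2 : ℝ) ^ n) ^ 2 * 2⁻¹ := by
          rw [hne, mul_pow, norm_r_sub_one hr]
        have h2 : (2 : ℝ) ^ (2 * m) = (2 : ℝ) ^ (2 * n - 1) := by
          rw [zpow_sub₀ (by norm_num), mul_comm 2 m, mul_comm 2 n, zpow_mul, zpow_mul]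
          simpa [div_eq_mul_inv] using h1
        have h3 := zpow_right_injective₀ (by norm_num : (0 : ℝ) < 2) (by norm_num) h2
        omega
  · exact IsUltrametricDist.norm_add_eq_max_of_norm_ne_norm hne

/-- residue classes: an element `a + b r` of norm at most one is `0` or `1` modulo the maximal ideal. -/
theorem residue (a b : ℚ_[2]) (h : ‖algebraMap ℚ_[2] Ω a + algebraMap ℚ_[2] Ω b * r‖ ≤ 1) :
    ‖algebraMap ℚ_[2] Ω a + algebraMap ℚ_[2] Ω b * r‖ < 1 ∨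
    ‖algebraMap ℚ_[2] Ω a + algebraMap ℚ_[2] Ω b * r - 1‖ < 1 := by
  have e : algebraMap ℚ_[2] Ω a + algebraMap ℚ_[2] Ω b * r =
      algebraMap ℚ_[2] Ω (a + b) + algebraMap ℚ_[2] Ω b * (r - 1) := by
    rw [map_add]; ring
  rw [e] at h ⊢
  rw [norm_eq_max hr] at h
  have ha : ‖algebraMap ℚ_[2] Ω (a + b)‖ ≤ 1 := (le_max_left _ _).trans h
  have hb : ‖algebraMap ℚ_[2] Ω b * (r - 1)‖ ≤ 1 := (le_max_right _ _).trans h
  have hb' : ‖algebraMap ℚ_[2] Ω b * (r - 1)‖ < 1 := by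
    refine lt_of_le_of_ne hb ?_
    intro h1
    rcases norm_coe b with hb0 | ⟨n, hn⟩
    · subst hb0
      simp at h1
    · have h2 : ((2 : ℝ) ^ n) ^ 2 * 2⁻¹ = 1 := by
        rw [← norm_r_sub_one hr, ← mul_pow, ← hn, ← norm_mul, h1]; norm_num
      have h3 : (2 : ℝ) ^ (2 * n - 1) = (2 : ℝ) ^ (0 : ℤ) := by
        rw [zpow_sub₀ (by norm_num), mul_comm 2 n, zpow_mul, zpow_zero]
        simpa [div_eq_mul_inv] using h2
      have h4 := zpow_right_injective₀ (by norm_num : (0 : ℝ) < 2) (by norm_num) h3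
      omega
  have hres : ‖algebraMap ℚ_[2] Ω (a + b)‖ < 1 ∨ ‖algebraMap ℚ_[2] Ω (a + b) - 1‖ < 1 := by
    rw [PadicAlgCl.norm_extends] at ha
    have h1 : algebraMap ℚ_[2] Ω (a + b) - 1 = algebraMap ℚ_[2] Ω (a + b - 1) := by
      rw [map_sub, map_one]
    rw [h1, PadicAlgCl.norm_extends, PadicAlgCl.norm_extends]
    obtain ⟨x, hx⟩ : ∃ x : ℤ_[2], (x : ℚ_[2]) = a + b := ⟨⟨a + b, ha⟩, rfl⟩
    obtain ⟨n, hn1, hn2⟩ := PadicInt.exists_mem_range (p := 2) x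
    have hn3 : ‖x - n‖ < 1 := PadicInt.mem_nonunits.1 ((IsLocalRing.mem_maximalIdeal _).1 hn2)
    rw [PadicInt.norm_def] at hn3
    push_cast at hn3
    rw [hx] at hn3
    interval_cases n
    · left
      simpa using hn3
    · right
      simpa using hn3
  rcases hres with h1 | h1
  · left
    exact (norm_add_le _ _).trans_lt (max_lt h1 hb')
  · right
    have : algebraMap ℚ_[2] Ω (a + b) + algebraMap ℚ_[2] Ω b * (r - 1) - 1 =
        (algebraMap ℚ_[2] Ω (a + b) - 1) + algebraMap ℚ_[2] Ω b * (r - 1) := by ring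
    rw [this]
    exact (norm_add_le _ _).trans_lt (max_lt h1 hb')

end root

end Pool.Agent.W173.Ud
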