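import Mathlib
import Pool.Agent.W173.Ud1

set_option autoImplicit false

namespace Pool.Agent.W173.Ud

/-- the subfield `ℚ_2(r) = {a + b r}` of `Ω` -/
def E (r : Ω) (hr : r ^ 2 = 3) : Subfield Ω where
  carrier := {z | ∃ a b : ℚ_[2], z = algebraMap ℚ_[2] Ω a + algebraMap ℚ_[2] Ω b * r}
  mul_mem' := by
    rintro _ _ ⟨a, b, rfl⟩ ⟨c, d, rfl⟩
    refine ⟨a * c + 3 * b * d, a * d + b * c, ?_⟩
    simp only [map_add, map_mul, map_ofNat]
    linear_combination (algebraMap ℚ_[2] Ω b * algebraMap ℚ_[2] Ω d) * hr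
  one_mem' := ⟨1, 0, by simp⟩
  add_mem' := by
    rintro _ _ ⟨a, b, rfl⟩ ⟨c, d, rfl⟩
    refine ⟨a + c, b + d, ?_⟩
    simp only [map_add]
    ring
  zero_mem' := ⟨0, 0, by simp⟩
  neg_mem' := by
    rintro _ ⟨a, b, rfl⟩
    refine ⟨-a, -b, ?_⟩
    simp only [map_neg]
    ring
  inv_mem' := by
    rintro _ ⟨a, b, rfl⟩
    by_cases h : a ^ 2 - 3 * b ^ 2 = 0
    · -- then `(a + b r) (a - b r) = 0`
      have h1 : (algebraMap ℚ_[2] Ω a + algebraMap ℚ_[2] Ω b * r) *
          (algebraMap ℚ_[2] Ω a - algebraMap ℚ_[2] Ω b * r) = 0 := by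
        have h2 := congrArg (algebraMap ℚ_[2] Ω) h
        simp only [map_sub, map_mul, map_pow, map_ofNat, map_zero] at h2
        linear_combination h2 - (algebraMap ℚ_[2] Ω b) ^ 2 * hr
      rcases mul_eq_zero.1 h1 with h2 | h2
      · rw [h2, inv_zero]
        exact ⟨0, 0, by simp⟩
      · -- `b r = a`
        have h3 : algebraMap ℚ_[2] Ω b * r = algebraMap ℚ_[2] Ω a := (sub_eq_zero.1 h2).symm
        refine ⟨(a + a)⁻¹, 0, ?_⟩
        rw [h3]
        simp only [map_inv₀, map_add, map_zero]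
        ring
    · refine ⟨a / (a ^ 2 - 3 * b ^ 2), -b / (a ^ 2 - 3 * b ^ 2), ?_⟩
      have h4 : algebraMap ℚ_[2] Ω (a ^ 2 - 3 * b ^ 2) ≠ 0 := by
        rw [Ne, map_eq_zero]
        exact h
      have h5 : (algebraMap ℚ_[2] Ω a + algebraMap ℚ_[2] Ω b * r) *
          (algebraMap ℚ_[2] Ω a - algebraMap ℚ_[2] Ω b * r) =
          algebraMap ℚ_[2] Ω (a ^ 2 - 3 * b ^ 2) := by
        simp only [map_sub, map_mul, map_pow, map_ofNat]
        linear_combination (-(algebraMap ℚ_[2] Ω b) ^ 2) * hr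
      have h6 : algebraMap ℚ_[2] Ω a + algebraMap ℚ_[2] Ω b * r ≠ 0 := by
        intro h0
        rw [h0, zero_mul] at h5
        exact h4 h5.symm
      rw [map_div₀, map_div₀, map_neg]
      field_simp
      rw [← h5]
      ring

variable {r : Ω} {hr : r ^ 2 = 3}

theorem E_residue {z : Ω} (hz : z ∈ E r hr) (h : ‖z‖ ≤ 1) : ‖z‖ < 1 ∨ ‖z - 1‖ < 1 := by
  obtain ⟨a, b, rfl⟩ := hz
  exact residue hr a b h

theorem norm_add_lt {x y : Ω} {c : ℝ} (hx : ‖x‖ < c) (hy : ‖y‖ < c) : ‖x + y‖ < c :=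
  (norm_add_le x y).trans_lt (max_lt hx hy)

theorem norm_add_le_of {x y : Ω} {c : ℝ} (hx : ‖x‖ ≤ c) (hy : ‖y‖ ≤ c) : ‖x + y‖ ≤ c :=
  (norm_add_le x y).trans (max_le hx hy)

/-- for `t` integral, `1 - t + t²` is a unit -/
theorem norm_form_unit {t : Ω} (ht : t ∈ E r hr) (h : ‖t‖ ≤ 1) : ‖1 - t + t ^ 2‖ = 1 := by
  have hle : ‖1 - t + t ^ 2‖ ≤ 1 := by
    refine norm_add_le_of ?_ ?_
    · refine (norm_sub_le' _ _).trans (max_le ?_ h)
      rw [norm_one]
    · rw [norm_pow]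
      exact pow_le_one₀ (norm_nonneg _) h
  refine le_antisymm hle (not_lt.1 ?_)
  intro hlt
  have key : ‖t ^ 2 - t‖ < 1 := by
    have : t ^ 2 - t = t * (t - 1) := by ring
    rw [this, norm_mul]
    have h1 : ‖t - 1‖ ≤ 1 := by
      refine (norm_sub_le' _ _).trans (max_le h ?_)
      rw [norm_one]
    rcases E_residue ht h with h2 | h2
    · nlinarith [norm_nonneg t, norm_nonneg (t - 1)]
    · nlinarith [norm_nonneg t, norm_nonneg (t - 1)]
  have : (1 : Ω) = (1 - t + t ^ 2) + (-(t ^ 2 - t)) := by ring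
  have h2 : ‖(1 : Ω)‖ < 1 := by
    rw [this]
    refine norm_add_lt hlt ?_
    rwa [norm_neg]
  rw [norm_one] at h2
  exact lt_irrefl _ h2

theorem norm_form {P R : Ω} (hP : P ∈ E r hr) (hR : R ∈ E r hr)
    (h : P ^ 2 - P * R + R ^ 2 = 1) : ‖P‖ ≤ 1 ∧ ‖R‖ ≤ 1 ∧ ¬ (‖P‖ < 1 ∧ ‖R‖ < 1) := by
  have key : ∀ P R : Ω, P ∈ E r hr → R ∈ E r hr → P ^ 2 - P * R + R ^ 2 = 1 → ‖R‖ ≤ ‖P‖ →
      ‖P‖ ≤ 1 := by
    intro P R hP hR h hle
    by_cases hP0 : P = 0
    · rw [hP0]; simp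
    have hPn : 0 < ‖P‖ := norm_pos_iff.2 hP0
    have ht : R / P ∈ E r hr := (E r hr).div_mem hR hP
    have ht1 : ‖R / P‖ ≤ 1 := by
      rw [norm_div]
      exact (div_le_one hPn).2 hle
    have h1 := norm_form_unit ht ht1
    have h2 : P ^ 2 * (1 - R / P + (R / P) ^ 2) = 1 := by
      have h2' : P ^ 2 * (1 - R / P + (R / P) ^ 2) = P ^ 2 - P * R + R ^ 2 := by
        field_simp
      rw [h2', h]
    have h3 : ‖P‖ ^ 2 = 1 := by
      have := congrArg norm h2
      rwa [norm_mul, h1, norm_pow, mul_one, norm_one] at this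
    nlinarith [norm_nonneg P]
  have hboth : ‖P‖ ≤ 1 ∧ ‖R‖ ≤ 1 := by
    rcases le_total ‖R‖ ‖P‖ with hle | hle
    · have := key P R hP hR h hle
      exact ⟨this, hle.trans this⟩
    · have := key R P hR hP (by rw [← h]; ring) hle
      exact ⟨hle.trans this, this⟩
  refine ⟨hboth.1, hboth.2, ?_⟩
  rintro ⟨h1, h2⟩
  have h3 : ‖P ^ 2 - P * R + R ^ 2‖ < 1 := by
    refine norm_add_lt ?_ ?_
    · refine (norm_sub_le' _ _).trans_lt (max_lt ?_ ?_)
      · rw [norm_pow]; nlinarith [norm_nonneg P]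
      · rw [norm_mul]; nlinarith [norm_nonneg P, norm_nonneg R]
    · rw [norm_pow]; nlinarith [norm_nonneg R]
  rw [h, norm_one] at h3
  exact lt_irrefl _ h3

/-- the residue class in `{0, 1}` -/
noncomputable def res (z : Ω) : Fin 2 := if ‖z‖ < 1 then 0 else 1

theorem res_eq {z w : Ω} (hz : z ∈ E r hr) (hw : w ∈ E r hr) (hz1 : ‖z‖ ≤ 1) (hw1 : ‖w‖ ≤ 1)
    (h : res z = res w) : ‖z - w‖ < 1 := by
  unfold res at h
  by_cases h1 : ‖z‖ < 1
  · by_cases h2 : ‖w‖ < 1
    · exact (norm_sub_le' _ _).trans_lt (max_lt h1 h2)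
    · rw [if_pos h1, if_neg h2] at h
      exact absurd h (by decide)
  · by_cases h2 : ‖w‖ < 1
    · rw [if_neg h1, if_pos h2] at h
      exact absurd h (by decide)
    · have h3 := (E_residue hz hz1).resolve_left h1
      have h4 := (E_residue hw hw1).resolve_left h2
      have : z - w = (z - 1) - (w - 1) := by ring
      rw [this]
      exact (norm_sub_le' _ _).trans_lt (max_lt h3 h4)

/-- first linear form -/
def Pf {F : Type*} [Field F] (s : F) (p : F × F) : F := p.1 + p.2 / s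

/-- second linear form -/
def Rf {F : Type*} [Field F] (s : F) (p : F × F) : F := 2 * p.2 / s

section forms

variable {F : Type*} [Field F] (s : F)

theorem Pf_sub (p q : F × F) : Pf s (p - q) = Pf s p - Pf s q := by
  simp only [Pf, Prod.fst_sub, Prod.snd_sub]; ring

theorem Rf_sub (p q : F × F) : Rf s (p - q) = Rf s p - Rf s q := by
  simp only [Rf, Prod.snd_sub]; ring

theorem form_eq (hs : s ^ 2 = 3) (hs0 : s ≠ 0) (p : F × F) :
    (Pf s p) ^ 2 - Pf s p * Rf s p + (Rf s p) ^ 2 = p.1 ^ 2 + p.2 ^ 2 := by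
  have h1 : (Pf s p) ^ 2 - Pf s p * Rf s p + (Rf s p) ^ 2 = p.1 ^ 2 + 3 * (p.2 ^ 2 / s ^ 2) := by
    simp only [Pf, Rf]
    field_simp
    ring
  rw [h1, hs]
  have h3 : (3 : F) ≠ 0 := by rw [← hs]; exact pow_ne_zero 2 hs0
  field_simp

end forms

/-- the equivalence relation `p - q` integral -/
def St {F : Type*} [Field F] (j : F →+* Ω) (s : F) : Setoid (F × F) where
  r p q := ‖j (Pf s (p - q))‖ ≤ 1 ∧ ‖j (Rf s (p - q))‖ ≤ 1
  iseqv :=
    { refl := fun p => by simp [Pf, Rf]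
      symm := by
        intro p q h
        rw [Pf_sub, Rf_sub] at h ⊢
        rw [← neg_sub (Pf s p), ← neg_sub (Rf s p), map_neg, map_neg, norm_neg, norm_neg]
        exact h
      trans := by
        intro p q t h1 h2
        have e1 : Pf s (p - t) = Pf s (p - q) + Pf s (q - t) := by
          rw [Pf_sub, Pf_sub, Pf_sub]; ring
        have e2 : Rf s (p - t) = Rf s (p - q) + Rf s (q - t) := by
          rw [Rf_sub, Rf_sub, Rf_sub]; ring
        rw [e1, e2, map_add, map_add]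
        exact ⟨norm_add_le_of h1.1 h2.1, norm_add_le_of h1.2 h2.2⟩ }

/-- abstract colouring: a field `F` with a ring homomorphism to `ℚ_2(√3)` whose image contains `√3`. -/
theorem colouring {F : Type*} [Field F] (j : F →+* Ω) (s : F) (hs : s ^ 2 = 3)
    (hE : ∀ x : F, j x ∈ E (j s) (by rw [← map_pow, hs, map_ofNat])) :
    ∃ c : F × F → Fin 2 × Fin 2, ∀ p q : F × F,
      (p.1 - q.1) ^ 2 + (p.2 - q.2) ^ 2 = 1 → c p ≠ c q := by
  classical
  have hs0 : s ≠ 0 := by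
    intro h
    rw [h] at hs
    have h3 : j 3 = 0 := by rw [← hs]; simp
    rw [map_ofNat] at h3
    have : (3 : Ω) ≠ 0 := by norm_num
    exact this h3
  let rep : F × F → F × F := fun p => (Quotient.mk (St j s) p).out
  have hrep : ∀ p, St j s (rep p) p := fun p => Quotient.mk_out p
  refine ⟨fun p => (res (j (Pf s (p - rep p))), res (j (Rf s (p - rep p)))), ?_⟩
  intro p q hadj hcol
  have hN : (Pf s (p - q)) ^ 2 - Pf s (p - q) * Rf s (p - q) + (Rf s (p - q)) ^ 2 = 1 := by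
    rw [form_eq s hs hs0]
    simpa using hadj
  have hN' : (j (Pf s (p - q))) ^ 2 - j (Pf s (p - q)) * j (Rf s (p - q)) +
      (j (Rf s (p - q))) ^ 2 = 1 := by
    rw [← map_pow, ← map_pow, ← map_mul, ← map_sub, ← map_add, hN, map_one]
  obtain ⟨h1, h2, h3⟩ := norm_form (hE _) (hE _) hN'
  have hpq : St j s p q := ⟨h1, h2⟩
  have hreq : rep p = rep q := by
    show (Quotient.mk (St j s) p).out = (Quotient.mk (St j s) q).out
    rw [Quotient.sound hpq]
  have hp1 : St j s p (rep p) := (St j s).symm' (hrep p)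
  have hq1 : St j s q (rep p) := by rw [hreq]; exact (St j s).symm' (hrep q)
  have hcol1 := congrArg Prod.fst hcol
  have hcol2 := congrArg Prod.snd hcol
  simp only at hcol1 hcol2
  rw [← hreq] at hcol1 hcol2
  apply h3
  constructor
  · have := res_eq (hE _) (hE _) hp1.1 hq1.1 hcol1
    rw [← map_sub] at this
    have e : Pf s (p - rep p) - Pf s (q - rep p) = Pf s (p - q) := by
      rw [Pf_sub, Pf_sub, Pf_sub]; ring
    rwa [e] at this
  · have := res_eq (hE _) (hE _) hp1.2 hq1.2 hcol2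
    rw [← map_sub] at this
    have e : Rf s (p - rep p) - Rf s (q - rep p) = Rf s (p - q) := by
      rw [Rf_sub, Rf_sub, Rf_sub]; ring
    rwa [e] at this

end Pool.Agent.W173.Ud
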